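import Pool.Agent.Run7.h987.SE.Iface

set_option autoImplicit false

open MeasureTheory Set

namespace Pool.Agent.Run7.h136.SE

open Pool.Agent.Run7.h987.SE

theorem t_INF : P_INF := by
  intro Γ _ hna
  by_contra hinf
  haveI hfin : Finite Γ := not_infinite_iff_finite.mp hinf
  apply hna
  have hpos : (0 : ℝ) < (Nat.card Γ : ℝ) := by
    have : 0 < Nat.card Γ := Nat.card_pos
    exact_mod_cast this
  refine ⟨fun A => (A.ncard : ℝ) / (Nat.card Γ : ℝ), ?_, ?_, ?_, ?_⟩
  · intro A
    positivity
  · simp only [Set.ncard_univ]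
    exact div_self hpos.ne'
  · intro A B hAB
    simp only
    rw [Set.ncard_union_eq hAB (Set.toFinite A) (Set.toFinite B)]
    push_cast
    ring
  · intro g A
    simp only
    rw [Set.ncard_image_of_injective A (mul_right_injective g)]

end Pool.Agent.Run7.h136.SE
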